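import Pool.Agent.Helper6.CX.Goals

/-! CX-CNT: permutations of exponent `E`. -/

open Equiv Finset

namespace Pool.Agent.Helper64.CX

theorem thm : Pool.Agent.Helper6.CX.S_CNT := by
  intro E N hE
  set q : ℕ := N / E with hq
  set m : Multiset ℕ := Multiset.replicate q E with hm
  have hsum : m.sum = q * E := by simp [hm, Multiset.sum_replicate]
  have hprod : m.prod = E ^ q := by simp [hm, Multiset.prod_replicate]
  have hqE : q * E ≤ N := Nat.div_mul_le_self N E
  have hcount : (∏ n ∈ m.toFinset, (m.count n).factorial) = q.factorial := by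
    rcases Nat.eq_zero_or_pos q with h0 | h0
    · simp [hm, h0]
    · have h1 : m.toFinset = {E} := by
        rw [hm, Multiset.toFinset_replicate, if_neg h0.ne']
      rw [h1, Finset.prod_singleton, hm, Multiset.count_replicate_self]
  have hcard := Equiv.Perm.card_of_cycleType_mul_eq (Fin N) m
  rw [if_pos ⟨by rw [hsum, Fintype.card_fin]; exact hqE, fun a ha => by
    rw [Multiset.eq_of_mem_replicate ha]; exact hE⟩, hsum, hprod, hcount, Fintype.card_fin] at hcard
  set k : ℕ := (Finset.filter (fun g : Perm (Fin N) => g.cycleType = m) Finset.univ).card with hk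
  have hle : k ≤ Nat.card {f : Perm (Fin N) // f ^ E = 1} := by
    rw [Nat.card_eq_fintype_card, Fintype.card_subtype]
    apply Finset.card_le_card
    intro g hg
    rw [Finset.mem_filter] at hg ⊢
    refine ⟨Finset.mem_univ _, ?_⟩
    rw [← orderOf_dvd_iff_pow_eq_one, ← Equiv.Perm.lcm_cycleType, hg.2, Multiset.lcm_dvd]
    intro b hb
    rw [Multiset.eq_of_mem_replicate hb]
  have h1 : (N - q * E).factorial ≤ E.factorial := by
    apply Nat.factorial_le
    have h2 : N % E < E := Nat.mod_lt _ (by omega)
    have h3 := Nat.div_add_mod N E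
    have h4 : E * (N / E) = q * E := by rw [hq]; ring
    omega
  have h2 : E ^ q * q.factorial ≤ N ^ q := by
    calc E ^ q * q.factorial ≤ E ^ q * q ^ q := Nat.mul_le_mul_left _ (Nat.factorial_le_pow q)
      _ = (q * E) ^ q := by rw [mul_pow]; ring
      _ ≤ N ^ q := Nat.pow_le_pow_left hqE q
  have h3 : N.factorial ≤ E.factorial * N ^ q * Nat.card {f : Perm (Fin N) // f ^ E = 1} := by
    calc N.factorial = k * ((N - q * E).factorial * E ^ q * q.factorial) := hcard.symm
      _ = (N - q * E).factorial * (E ^ q * q.factorial) * k := by ring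
      _ ≤ E.factorial * N ^ q * Nat.card {f : Perm (Fin N) // f ^ E = 1} :=
          Nat.mul_le_mul (Nat.mul_le_mul h1 h2) hle
  exact_mod_cast h3

end Pool.Agent.Helper64.CX
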